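import Mathlib

/-!
# MP_d9c72a_nt : almost Sidon sets

If `A ⊆ {1, …, N}` and at most one integer has two or more representations `a + b`, `a ≤ b`, in
`A`, then `|A| ≤ (2N)^(1/2) + (2√2/3) (2N)^(1/4) + 95`.

Method.  In such a set every non-zero difference is represented at most twice.  Windows of
length `l` are weighted by the ramp `1, 2, …, l`; the weighted counts `S` are tested against
`h = 1 + (y(κ+1) - y(κ))`, where `y` solves the renewal equation
`l y(m+l) = y(m) + … + y(m+l-1)` with explicit initial data (the same kernel as in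
`MP_b3cbc5_nt.RampWindow`).
-/

set_option autoImplicit false

namespace Pool.Agent.Results.MP_d9c72a_nt.RootTwo

open Finset

/-- the renewal-type sequence -/
noncomputable def y (l : ℕ) (k : ℕ) : ℝ :=
  if h : k < l ∨ l = 0 then l * ((1 + 1 / (l : ℝ)) ^ k - 1) - 2 * k
  else (∑ j : Fin l, y l (k - l + j)) / l
termination_by k
decreasing_by
  have := j.2
  omega

lemma y_init {l k : ℕ} (h : k < l) : y l k = l * ((1 + 1 / (l : ℝ)) ^ k - 1) - 2 * k := by
  rw [y, dif_pos (Or.inl h)]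

lemma y_rec {l : ℕ} (hl : 1 ≤ l) (m : ℕ) : (l : ℝ) * y l (m + l) = ∑ i ∈ range l, y l (m + i) := by
  rw [y, dif_neg (by omega)]
  have hl' : (l : ℝ) ≠ 0 := by positivity
  rw [mul_div_cancel₀ _ hl', Fin.sum_univ_eq_sum_range (fun i => y l (m + l - l + i)) l]
  simp

lemma shift_sum (f : ℕ → ℝ) (l m : ℕ) :
    ∑ i ∈ range l, f (m + 1 + i) = ∑ i ∈ range l, f (m + i) + f (m + l) - f m := by
  have h1 := Finset.sum_range_succ (fun i => f (m + i)) l
  have h2 := Finset.sum_range_succ' (fun i => f (m + i)) l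
  have h3 : ∑ i ∈ range l, f (m + 1 + i) = ∑ i ∈ range l, f (m + (i + 1)) :=
    Finset.sum_congr rfl fun i _ => by congr 1; ring
  rw [h3]
  simp only [add_zero] at h2
  linarith

lemma y_shift {l : ℕ} (hl : 1 ≤ l) (m : ℕ) :
    y l m = (l + 1) * y l (m + l) - l * y l (m + l + 1) := by
  have h1 := y_rec hl m
  have h2 := y_rec hl (m + 1)
  rw [shift_sum (y l) l m] at h2
  have h3 : m + 1 + l = m + l + 1 := by ring
  rw [h3] at h2
  linarith

/-- the energy of a window -/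
noncomputable def V (l m : ℕ) : ℝ := ∑ i ∈ range l, y l (m + i) ^ 2 - l * y l (m + l) ^ 2

lemma V_step {l : ℕ} (hl : 1 ≤ l) (m : ℕ) :
    V l m - V l (m + 1) = l * (l + 1) * (y l (m + l + 1) - y l (m + l)) ^ 2 := by
  unfold V
  rw [shift_sum (fun k => y l k ^ 2) l m]
  have h3 : m + 1 + l = m + l + 1 := by ring
  rw [h3, y_shift hl m]
  ring

lemma V_eq {l : ℕ} (hl : 1 ≤ l) (m : ℕ) :
    V l m = ∑ i ∈ range l, (y l (m + i) - y l (m + l)) ^ 2 := by
  unfold V
  have h1 := y_rec hl m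
  have : ∑ i ∈ range l, (y l (m + i) - y l (m + l)) ^ 2
      = ∑ i ∈ range l, y l (m + i) ^ 2 - 2 * y l (m + l) * ∑ i ∈ range l, y l (m + i)
        + l * y l (m + l) ^ 2 := by
    rw [Finset.mul_sum, ← Finset.sum_sub_distrib]
    have : (l : ℝ) * y l (m + l) ^ 2 = ∑ i ∈ range l, y l (m + l) ^ 2 := by simp
    rw [this, ← Finset.sum_add_distrib]
    exact Finset.sum_congr rfl fun i _ => by ring
  rw [this, ← h1]
  ring

lemma V_nonneg {l : ℕ} (hl : 1 ≤ l) (m : ℕ) : 0 ≤ V l m := by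
  rw [V_eq hl]
  exact Finset.sum_nonneg fun i _ => sq_nonneg _

lemma V_anti {l : ℕ} (hl : 1 ≤ l) : Antitone (V l) := by
  refine antitone_nat_of_succ_le fun m => ?_
  have := V_step hl m
  have : 0 ≤ l * (l + 1) * (y l (m + l + 1) - y l (m + l)) ^ 2 := by positivity
  linarith

lemma V_tele {l : ℕ} (hl : 1 ≤ l) (m k : ℕ) :
    V l m - V l (m + k) = l * (l + 1) * ∑ p ∈ range k, (y l (m + l + p + 1) - y l (m + l + p)) ^ 2 := by
  induction k with
  | zero => simp
  | succ k ih =>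
    rw [Finset.sum_range_succ, mul_add, ← ih]
    have := V_step hl (m + k)
    have h1 : m + k + l = m + l + k := by ring
    have h2 : m + (k + 1) = m + k + 1 := by ring
    rw [h1] at this
    rw [h2, ← this]
    ring

lemma tele_sq (f : ℕ → ℝ) (a i l : ℕ) (hi : i ≤ l) :
    (f (a + i) - f (a + l)) ^ 2 ≤ ((l : ℝ) - i) * ∑ p ∈ range l, (f (a + p + 1) - f (a + p)) ^ 2 := by
  have h1 : f (a + l) - f (a + i) = ∑ p ∈ Ico i l, (f (a + p + 1) - f (a + p)) := by
    rw [Finset.sum_Ico_eq_sub _ hi]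
    have h2 : ∀ k, ∑ p ∈ range k, (f (a + p + 1) - f (a + p)) = f (a + k) - f a := by
      intro k
      have := Finset.sum_range_sub (fun p => f (a + p)) k
      simpa [add_assoc] using this
    rw [h2, h2]
    ring
  have h3 : (f (a + i) - f (a + l)) ^ 2 = (f (a + l) - f (a + i)) ^ 2 := by ring
  rw [h3, h1]
  calc (∑ p ∈ Ico i l, (f (a + p + 1) - f (a + p))) ^ 2
      ≤ (#(Ico i l) : ℝ) * ∑ p ∈ Ico i l, (f (a + p + 1) - f (a + p)) ^ 2 := sq_sum_le_card_mul_sum_sq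
    _ = ((l : ℝ) - i) * ∑ p ∈ Ico i l, (f (a + p + 1) - f (a + p)) ^ 2 := by
        rw [Nat.card_Ico, Nat.cast_sub hi]
    _ ≤ _ := by
        apply mul_le_mul_of_nonneg_left
        · apply Finset.sum_le_sum_of_subset_of_nonneg
          · intro x hx
            simp at hx ⊢
            exact hx.2
          · intro i _ _
            exact sq_nonneg _
        · have : (i : ℝ) ≤ l := by exact_mod_cast hi
          linarith

lemma sum_sub_id (l : ℕ) : ∑ i ∈ range l, ((l : ℝ) - i) = l * (l + 1) / 2 := by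
  induction l with
  | zero => simp
  | succ l ih =>
    rw [Finset.sum_range_succ]
    have : ∑ i ∈ range l, (((l + 1 : ℕ) : ℝ) - i) = ∑ i ∈ range l, ((l : ℝ) - i) + l := by
      have h : (l : ℝ) = ∑ i ∈ range l, (1 : ℝ) := by simp
      conv_rhs => rw [h, ← h]
      conv_rhs => 
        arg 2
        rw [h]
      rw [← Finset.sum_add_distrib]
      exact Finset.sum_congr rfl fun i _ => by push_cast; ring
    rw [this, ih]
    push_cast
    ring

lemma V_decay {l : ℕ} (hl : 1 ≤ l) (m : ℕ) : 3 * V l (m + l) ≤ V l m := by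
  have h1 := V_tele hl m l
  have h2 : V l (m + l) ≤ (l * (l + 1) / 2) * ∑ p ∈ range l, (y l (m + l + p + 1) - y l (m + l + p)) ^ 2 := by
    rw [V_eq hl, ← sum_sub_id, Finset.sum_mul]
    apply Finset.sum_le_sum
    intro i hi
    exact tele_sq (y l) (m + l) i l (Finset.mem_range.1 hi).le
  linarith

lemma V_decay_pow {l : ℕ} (hl : 1 ≤ l) (q : ℕ) : 3 ^ q * V l (q * l) ≤ V l 0 := by
  induction q with
  | zero => simp
  | succ q ih =>
    have := V_decay hl (q * l)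
    have h : (q + 1) * l = q * l + l := by ring
    rw [h, pow_succ]
    calc 3 ^ q * 3 * V l (q * l + l) = 3 ^ q * (3 * V l (q * l + l)) := by ring
      _ ≤ 3 ^ q * V l (q * l) := mul_le_mul_of_nonneg_left this (by positivity)
      _ ≤ _ := ih

/-- the conserved first moment -/
noncomputable def K (l m : ℕ) : ℝ := ∑ i ∈ range l, ((i : ℝ) + 1) * y l (m + i)

lemma K_step {l : ℕ} (hl : 1 ≤ l) (m : ℕ) : K l (m + 1) = K l m := by
  unfold K
  have h1 := Finset.sum_range_succ (fun i => (i : ℝ) * y l (m + i)) l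
  have h2 := Finset.sum_range_succ' (fun i => (i : ℝ) * y l (m + i)) l
  have h3 : ∑ i ∈ range l, ((i : ℝ) + 1) * y l (m + 1 + i)
      = ∑ i ∈ range l, ((i + 1 : ℕ) : ℝ) * y l (m + (i + 1)) :=
    Finset.sum_congr rfl fun i _ => by
      push_cast
      have : m + 1 + i = m + (i + 1) := by ring
      rw [this]
  have h4 : ∑ i ∈ range l, ((i : ℝ) + 1) * y l (m + i)
      = ∑ i ∈ range l, (i : ℝ) * y l (m + i) + ∑ i ∈ range l, y l (m + i) := by
    rw [← Finset.sum_add_distrib]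
    exact Finset.sum_congr rfl fun i _ => by ring
  rw [h3, h4, ← y_rec hl m]
  simp only [Nat.cast_zero, zero_mul, add_zero] at h2
  linarith

lemma K_const {l : ℕ} (hl : 1 ≤ l) (m : ℕ) : K l m = K l 0 := by
  induction m with
  | zero => rfl
  | succ m ih => rw [K_step hl, ih]

lemma sum_id1 (l : ℕ) : ∑ i ∈ range l, ((i : ℝ) + 1) = l * (l + 1) / 2 := by
  induction l with
  | zero => simp
  | succ l ih => rw [Finset.sum_range_succ, ih]; push_cast; ring

lemma sum_sq1 (l : ℕ) :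
    ∑ i ∈ range l, ((i : ℝ) + 1) ^ 2 = (l : ℝ) * (l + 1) * (2 * l + 1) / 6 := by
  induction l with
  | zero => simp
  | succ l ih => rw [Finset.sum_range_succ, ih]; push_cast; ring

lemma y_close {l : ℕ} (hl : 1 ≤ l) (m : ℕ) :
    (y l (m + l) - 2 * K l 0 / (l * (l + 1))) ^ 2 ≤ (4 / 3) * V l m / l := by
  have hl0 : (0 : ℝ) < l := by exact_mod_cast hl
  set c := 2 * K l 0 / ((l : ℝ) * (l + 1)) with hc
  have hK : K l 0 = c * (l * (l + 1)) / 2 := by rw [hc]; field_simp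
  have h1 : ∑ i ∈ range l, ((i : ℝ) + 1) * (y l (m + i) - y l (m + l))
      = (c - y l (m + l)) * (l * (l + 1) / 2) := by
    have : ∑ i ∈ range l, ((i : ℝ) + 1) * (y l (m + i) - y l (m + l))
        = K l m - y l (m + l) * ∑ i ∈ range l, ((i : ℝ) + 1) := by
      unfold K
      rw [Finset.mul_sum, ← Finset.sum_sub_distrib]
      exact Finset.sum_congr rfl fun i _ => by ring
    rw [this, sum_id1, K_const hl m, hK]
    ring
  have h2 := Finset.sum_mul_sq_le_sq_mul_sq (range l) (fun i => (i : ℝ) + 1)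
    (fun i => y l (m + i) - y l (m + l))
  rw [h1, sum_sq1, ← V_eq hl] at h2
  have hV := V_nonneg hl m
  rw [le_div_iff₀ hl0]
  have h3 : ((c - y l (m + l)) * (l * (l + 1) / 2)) ^ 2
      = (y l (m + l) - c) ^ 2 * l * (l * (l + 1) ^ 2 / 4) := by ring
  rw [h3] at h2
  have h4 : (l : ℝ) * (l + 1) * (2 * l + 1) / 6 * V l m ≤ 4 / 3 * V l m * (l * (l + 1) ^ 2 / 4) := by
    have : 4 / 3 * V l m * (l * (l + 1) ^ 2 / 4) - (l : ℝ) * (l + 1) * (2 * l + 1) / 6 * V l m
      = V l m * (l * (l + 1) / 6) := by ring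
    have : 0 ≤ V l m * ((l : ℝ) * (l + 1) / 6) := by positivity
    linarith
  exact le_of_mul_le_mul_right (h2.trans h4) (by positivity)


/-! ### closed forms on the first window -/

lemma geo1 (l r : ℝ) (h : l * r = l + 1) (m : ℕ) :
    ∑ i ∈ range m, r ^ i = l * (r ^ m - 1) := by
  induction m with
  | zero => simp
  | succ m ih => rw [Finset.sum_range_succ, ih, pow_succ]; linear_combination (-r ^ m) * h

lemma geo2 (l r : ℝ) (h : l * r = l + 1) (m : ℕ) :
    ∑ i ∈ range m, ((i : ℝ) + 1) * r ^ i = l * m * r ^ m - l ^ 2 * r ^ m + l ^ 2 := by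
  induction m with
  | zero => simp
  | succ m ih =>
    rw [Finset.sum_range_succ, ih, pow_succ]; push_cast
    linear_combination (-r ^ m * (m + 1 - l)) * h

lemma geo3 (l r : ℝ) (h : l * r = l + 1) (m : ℕ) :
    (2 * l + 1) * ∑ i ∈ range m, (r ^ i) ^ 2 = l ^ 2 * ((r ^ m) ^ 2 - 1) := by
  induction m with
  | zero => simp
  | succ m ih =>
    rw [Finset.sum_range_succ, mul_add, ih, pow_succ]
    linear_combination (-(r ^ m) ^ 2 * (l * r + l + 1)) * h

lemma sum_i (m : ℕ) : ∑ i ∈ range m, (i : ℝ) = m * (m - 1) / 2 := by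
  induction m with
  | zero => simp
  | succ m ih => rw [Finset.sum_range_succ, ih]; push_cast; ring

lemma sum_i1i (m : ℕ) : ∑ i ∈ range m, ((i : ℝ) + 1) * i = (m : ℝ) * (m - 1) * (m + 1) / 3 := by
  induction m with
  | zero => simp
  | succ m ih => rw [Finset.sum_range_succ, ih]; push_cast; ring

lemma sum_ii (m : ℕ) : ∑ i ∈ range m, (i : ℝ) ^ 2 = (m : ℝ) * (m - 1) * (2 * m - 1) / 6 := by
  induction m with
  | zero => simp
  | succ m ih => rw [Finset.sum_range_succ, ih]; push_cast; ring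

section closed

variable {l : ℕ} (hl : 1 ≤ l)

include hl

lemma lr : (l : ℝ) * (1 + 1 / (l : ℝ)) = l + 1 := by
  have : (l : ℝ) ≠ 0 := by positivity
  field_simp

lemma y_zero : y l 0 = 0 := by
  rw [y_init (by omega)]; simp

lemma y_l : y l l = l * (1 + 1 / (l : ℝ)) ^ l - 3 * l + 1 := by
  have hl0 : (l : ℝ) ≠ 0 := by positivity
  have h := y_rec hl 0
  simp only [zero_add] at h
  have h2 : ∑ i ∈ range l, y l i = ∑ i ∈ range l, (l * (1 + 1 / (l : ℝ)) ^ i - l - 2 * i) :=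
    Finset.sum_congr rfl fun i hi => by rw [y_init (Finset.mem_range.1 hi)]; ring
  rw [h2, Finset.sum_sub_distrib, Finset.sum_sub_distrib, ← Finset.mul_sum, ← Finset.mul_sum,
    geo1 l _ (lr hl), sum_i, Finset.sum_const, card_range, nsmul_eq_mul] at h
  have := mul_left_cancel₀ hl0 (h.trans (show _ = (l : ℝ) * (l * (1 + 1 / (l : ℝ)) ^ l - 3 * l + 1) by ring))
  exact this

lemma K_zero : K l 0 = -(l * (l - 1) * (l + 4)) / 6 := by
  unfold K
  simp only [zero_add]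
  have h2 : ∑ i ∈ range l, ((i : ℝ) + 1) * y l i = ∑ i ∈ range l, (l * (((i : ℝ) + 1) * (1 + 1 / (l : ℝ)) ^ i)
      - l * ((i : ℝ) + 1) - 2 * (((i : ℝ) + 1) * i)) :=
    Finset.sum_congr rfl fun i hi => by rw [y_init (Finset.mem_range.1 hi)]; ring
  rw [h2, Finset.sum_sub_distrib, Finset.sum_sub_distrib, ← Finset.mul_sum, ← Finset.mul_sum,
    ← Finset.mul_sum, geo2 l _ (lr hl), sum_id1, sum_i1i]
  ring

lemma V_zero : (2 * (l : ℝ) + 1) * V l 0 = l ^ 4 * (((1 + 1 / (l : ℝ)) ^ l) ^ 2 - 1)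
    + (2 * l + 1) * (- 2 * l * (l ^ 2 * ((1 + 1 / (l : ℝ)) ^ l - 1) + 2 * l ^ 2
        - 2 * l * ((1 + 1 / (l : ℝ)) ^ l - 1)) + l ^ 3 + 2 * l ^ 2 * (l - 1)
        + 2 / 3 * l * (l - 1) * (2 * l - 1) - l * (l * (1 + 1 / (l : ℝ)) ^ l - 3 * l + 1) ^ 2) := by
  unfold V
  simp only [zero_add]
  rw [y_l hl]
  have h2 : ∑ i ∈ range l, y l i ^ 2 = ∑ i ∈ range l, ((l : ℝ) ^ 2 * ((1 + 1 / (l : ℝ)) ^ i) ^ 2
      - 4 * l * (((i : ℝ) + 1) * (1 + 1 / (l : ℝ)) ^ i) - (2 * l ^ 2 - 4 * l) * (1 + 1 / (l : ℝ)) ^ i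
      + (l ^ 2 + 4 * l * i + 4 * (i : ℝ) ^ 2)) :=
    Finset.sum_congr rfl fun i hi => by rw [y_init (Finset.mem_range.1 hi)]; ring
  rw [h2, Finset.sum_add_distrib, Finset.sum_sub_distrib, Finset.sum_sub_distrib,
    Finset.sum_add_distrib, Finset.sum_add_distrib, ← Finset.mul_sum, ← Finset.mul_sum,
    ← Finset.mul_sum, ← Finset.mul_sum, ← Finset.mul_sum, geo2 l _ (lr hl), geo1 l _ (lr hl),
    sum_i, sum_ii, Finset.sum_const, card_range, nsmul_eq_mul]
  have h3 := geo3 l _ (lr hl) l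
  set S := ∑ i ∈ range l, ((1 + 1 / (l : ℝ)) ^ i) ^ 2 with hS
  set R := (1 + 1 / (l : ℝ)) ^ l with hR
  linear_combination (l : ℝ) ^ 2 * h3

lemma D_zero : (2 * (l : ℝ) + 1) * (l + 1) * ∑ k ∈ range l, (y l (k + 1) - y l k) ^ 2
    = (l + 1) * l ^ 2 * (((1 + 1 / (l : ℝ)) ^ l) ^ 2 - 1)
      + (2 * l + 1) * (l + 1) * (- 4 * l * ((1 + 1 / (l : ℝ)) ^ l - 1) + 4 * l - 3)
      + (2 * l + 1) * (2 * l * (1 + 1 / (l : ℝ)) ^ l) := by
  obtain ⟨k, rfl⟩ : ∃ k, l = k + 1 := ⟨l - 1, by omega⟩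
  set r : ℝ := 1 + 1 / ((k + 1 : ℕ) : ℝ) with hr
  have hlr : ((k + 1 : ℕ) : ℝ) * r = (k + 1 : ℕ) + 1 := lr hl
  have hlast : y (k + 1) (k + 1) - y (k + 1) k = r ^ k - 1 := by
    rw [y_l hl, y_init (by omega), ← hr, pow_succ]
    push_cast at hlr ⊢
    linear_combination (r ^ k) * hlr
  have hmid : ∀ i ∈ range k, (y (k + 1) (i + 1) - y (k + 1) i) ^ 2
      = (r ^ i) ^ 2 - 4 * r ^ i + 4 := by
    intro i hi
    have hi' := Finset.mem_range.1 hi
    have : y (k + 1) (i + 1) - y (k + 1) i = r ^ i - 2 := by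
      rw [y_init (by omega), y_init (by omega), ← hr, pow_succ]
      push_cast at hlr ⊢
      linear_combination (r ^ i) * hlr
    rw [this]; ring
  rw [Finset.sum_range_succ, hlast, Finset.sum_congr rfl hmid, Finset.sum_add_distrib,
    Finset.sum_sub_distrib, ← Finset.mul_sum, geo1 _ r hlr, Finset.sum_const, card_range,
    nsmul_eq_mul]
  have h3 := geo3 _ r hlr k
  have hr2 : r = ((k : ℝ) + 2) / (k + 1) := by
    rw [hr]; push_cast; field_simp; ring
  rw [pow_succ r k]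
  clear_value r
  generalize ∑ i ∈ range k, (r ^ i) ^ 2 = S at h3 ⊢
  generalize r ^ k = Q at h3 ⊢
  push_cast at h3 ⊢
  have hk : (k : ℝ) + 1 ≠ 0 := by positivity
  subst hr2
  field_simp
  linear_combination ((k : ℝ) + 2) * h3

end closed


/-- The exact evaluation of the cost of the two boundary layers: all powers of `1 + 1/l` cancel. -/
lemma T_eq {l : ℕ} (hl : 1 ≤ l) :
    ∑ k ∈ range l, (y l (k + 1) - y l k) ^ 2 + V l 0 / (l * (l + 1))
      + 2 * (2 * K l 0 / (l * (l + 1))) + l - 1 = 2 * (l : ℝ) / 3 + 1 / 3 - 2 / (l + 1) := by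
  have hl0 : (0 : ℝ) < l := by exact_mod_cast hl
  have h1 := D_zero hl
  have h2 := V_zero hl
  rw [K_zero hl]
  generalize ∑ k ∈ range l, (y l (k + 1) - y l k) ^ 2 = D at h1 ⊢
  generalize V l 0 = W at h2 ⊢
  generalize (1 + 1 / (l : ℝ)) ^ l = R at h1 h2
  have h3 : D = ((l + 1) * l ^ 2 * (R ^ 2 - 1)
      + (2 * l + 1) * (l + 1) * (- 4 * l * (R - 1) + 4 * l - 3)
      + (2 * l + 1) * (2 * l * R)) / ((2 * (l : ℝ) + 1) * (l + 1)) := by
    rw [eq_div_iff (by positivity), ← h1]; ring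
  have h4 : W = (l ^ 4 * (R ^ 2 - 1)
    + (2 * l + 1) * (- 2 * l * (l ^ 2 * (R - 1) + 2 * l ^ 2
        - 2 * l * (R - 1)) + l ^ 3 + 2 * l ^ 2 * (l - 1)
        + 2 / 3 * l * (l - 1) * (2 * l - 1) - l * (l * R - 3 * l + 1) ^ 2)) / (2 * (l : ℝ) + 1) := by
    rw [eq_div_iff (by positivity), ← h2]; ring
  rw [h3, h4]
  field_simp
  ring

lemma V_zero_le {l : ℕ} (hl : 1 ≤ l) : V l 0 ≤ 4 * (l : ℝ) ^ 3 := by
  have hl0 : (0 : ℝ) < l := by exact_mod_cast hl
  have hR : (1 + 1 / (l : ℝ)) ^ l ≤ 3 := by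
    have h1 : 1 + 1 / (l : ℝ) ≤ Real.exp (1 / l) := by
      have := Real.add_one_le_exp (1 / (l : ℝ)); linarith
    calc (1 + 1 / (l : ℝ)) ^ l ≤ Real.exp (1 / l) ^ l := pow_le_pow_left₀ (by positivity) h1 l
      _ = Real.exp 1 := by rw [← Real.exp_nat_mul]; congr 1; field_simp
      _ ≤ 3 := by have := Real.exp_one_lt_d9; linarith
  have hy : ∀ i ∈ range l, y l i ^ 2 ≤ 4 * (l : ℝ) ^ 2 := by
    intro i hi
    have hi' := Finset.mem_range.1 hi
    have hil : (i : ℝ) ≤ l := by exact_mod_cast hi'.le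
    rw [y_init hi']
    have hlow : 1 + (i : ℝ) * (1 / l) ≤ (1 + 1 / (l : ℝ)) ^ i :=
      one_add_mul_le_pow (by have : 0 ≤ 1 / (l : ℝ) := by positivity
                             linarith) i
    have hup : (1 + 1 / (l : ℝ)) ^ i ≤ 3 :=
      (pow_le_pow_right₀ (by have : 0 ≤ 1 / (l : ℝ) := by positivity
                             linarith) hi'.le).trans hR
    have h1 : (i : ℝ) ≤ l * ((1 + 1 / (l : ℝ)) ^ i - 1) := by
      have : (i : ℝ) = l * ((1 + (i : ℝ) * (1 / l)) - 1) := by field_simp; ring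
      rw [this]
      apply mul_le_mul_of_nonneg_left _ hl0.le
      linarith
    have h2 : l * ((1 + 1 / (l : ℝ)) ^ i - 1) ≤ l * 2 :=
      mul_le_mul_of_nonneg_left (by linarith) hl0.le
    have h3 : (0 : ℝ) ≤ i := by positivity
    have : |l * ((1 + 1 / (l : ℝ)) ^ i - 1) - 2 * i| ≤ 2 * l := by
      rw [abs_le]; constructor <;> linarith
    calc (l * ((1 + 1 / (l : ℝ)) ^ i - 1) - 2 * i) ^ 2
        = |l * ((1 + 1 / (l : ℝ)) ^ i - 1) - 2 * i| ^ 2 := (sq_abs _).symm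
      _ ≤ (2 * l) ^ 2 := pow_le_pow_left₀ (abs_nonneg _) this 2
      _ = 4 * (l : ℝ) ^ 2 := by ring
  unfold V
  simp only [zero_add]
  have h5 := Finset.sum_le_sum hy
  rw [Finset.sum_const, card_range, nsmul_eq_mul] at h5
  have h6 : 0 ≤ (l : ℝ) * y l l ^ 2 := by positivity
  nlinarith

lemma three_pow (q : ℕ) : 3 * ((q : ℝ) + 1) ^ 2 ≤ 4 * 3 ^ q := by
  induction q with
  | zero => norm_num
  | succ q ih =>
    rcases Nat.eq_zero_or_pos q with h | h
    · subst h; norm_num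
    · have h1 : (1 : ℝ) ≤ q := by exact_mod_cast h
      rw [pow_succ (3 : ℝ) q]
      push_cast
      nlinarith

lemma y_tail {l : ℕ} (hl : 1 ≤ l) (m : ℕ) :
    y l (m + l) - 2 * K l 0 / (l * (l + 1)) ≤ 3 * (l : ℝ) ^ 2 / (m + 1) := by
  have hl0 : (0 : ℝ) < l := by exact_mod_cast hl
  have h1 := y_close hl m
  have h2 := V_decay_pow hl (m / l)
  have h3 : V l m ≤ V l (m / l * l) := V_anti hl (Nat.div_mul_le_self m l)
  have h4 := V_zero_le hl
  have h5 := three_pow (m / l)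
  have h6 : (m : ℝ) + 1 ≤ (((m / l : ℕ) : ℝ) + 1) * l := by
    have : m + 1 ≤ (m / l + 1) * l := by
      have h7 := Nat.div_add_mod m l
      have h8 := Nat.mod_lt m (show 0 < l by omega)
      have h9 : (m / l + 1) * l = l * (m / l) + l := by ring
      omega
    exact_mod_cast this
  have hV := V_nonneg hl m
  generalize ((m / l : ℕ) : ℝ) = Q at h5 h6
  have hm : (0 : ℝ) < (m : ℝ) + 1 := by positivity
  -- `(m+1)² V(m) ≤ (16/3) l⁵`
  have h7 : ((m : ℝ) + 1) ^ 2 ≤ ((Q + 1) * l) ^ 2 := pow_le_pow_left₀ hm.le h6 2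
  have h8 : ((m : ℝ) + 1) ^ 2 * V l m ≤ (16 / 3) * (l : ℝ) ^ 5 := by
    calc ((m : ℝ) + 1) ^ 2 * V l m ≤ ((Q + 1) * l) ^ 2 * V l m :=
          mul_le_mul_of_nonneg_right h7 hV
      _ = (l : ℝ) ^ 2 * ((Q + 1) ^ 2 * V l m) := by ring
      _ ≤ (l : ℝ) ^ 2 * ((4 / 3 * 3 ^ (m / l)) * V l m) := by
          apply mul_le_mul_of_nonneg_left _ (by positivity)
          apply mul_le_mul_of_nonneg_right _ hV
          linarith
      _ ≤ (l : ℝ) ^ 2 * ((4 / 3) * (4 * (l : ℝ) ^ 3)) := by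
          apply mul_le_mul_of_nonneg_left _ (by positivity)
          have : 3 ^ (m / l) * V l m ≤ 3 ^ (m / l) * V l (m / l * l) :=
            mul_le_mul_of_nonneg_left h3 (by positivity)
          nlinarith
      _ = (16 / 3) * (l : ℝ) ^ 5 := by ring
  have h9 : (y l (m + l) - 2 * K l 0 / (l * (l + 1))) ^ 2 ≤ (3 * (l : ℝ) ^ 2 / (m + 1)) ^ 2 := by
    refine h1.trans ?_
    rw [div_pow, div_le_div_iff₀ hl0 (by positivity)]
    nlinarith [pow_pos hl0 5]
  exact le_of_abs_le (abs_le_of_sq_le_sq h9 (by positivity))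

lemma H_sum {l : ℕ} (hl : 1 ≤ l) (m : ℕ) :
    ∑ k ∈ range (l + m), (1 + (y l (k + 1) - y l k)) ^ 2
      ≤ ((m : ℝ) + 1) + 2 * l / 3 + 1 / 3 + 6 * (l : ℝ) ^ 2 / (m + 1) := by
  have hl0 : (0 : ℝ) < l := by exact_mod_cast hl
  have h1 : ∑ k ∈ range (l + m), (1 + (y l (k + 1) - y l k)) ^ 2
      = (l + m) + 2 * ∑ k ∈ range (l + m), (y l (k + 1) - y l k)
        + ∑ k ∈ range (l + m), (y l (k + 1) - y l k) ^ 2 := by
    have : ((l : ℝ) + m) = ∑ k ∈ range (l + m), (1 : ℝ) := by simp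
    rw [this, Finset.mul_sum, ← Finset.sum_add_distrib, ← Finset.sum_add_distrib]
    exact Finset.sum_congr rfl fun i _ => by ring
  rw [h1, Finset.sum_range_sub, y_zero hl, Finset.sum_range_add]
  have h2 := V_tele hl 0 m
  simp only [zero_add] at h2
  have h3 : ∑ x ∈ range m, (y l (l + x + 1) - y l (l + x)) ^ 2 = (V l 0 - V l m) / (l * (l + 1)) := by
    rw [eq_div_iff (by positivity), h2]; ring
  rw [h3]
  have h4 := T_eq hl
  have h5 := y_tail hl m
  have h6 := V_nonneg hl m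
  have h7 : (V l 0 - V l m) / (l * (l + 1)) ≤ V l 0 / (l * (l + 1)) := by
    apply div_le_div_of_nonneg_right _ (by positivity)
    linarith
  have h8 : (0 : ℝ) ≤ 2 / ((l : ℝ) + 1) := by positivity
  have h9 : m + l = l + m := by ring
  rw [h9] at h5
  have h10 : 6 * (l : ℝ) ^ 2 / (m + 1) = 2 * (3 * (l : ℝ) ^ 2 / (m + 1)) := by ring
  rw [h10]
  linarith


/-! ### the windows weighted by a ramp -/

/-- the weighted window counts -/
noncomputable def S (B : Finset ℕ) (l κ : ℕ) : ℝ :=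
  ∑ b ∈ B, ∑ i ∈ range l, if b + i = κ then (i : ℝ) + 1 else 0

lemma S_pair (B : Finset ℕ) (l M : ℕ) (hM : ∀ b ∈ B, b + l ≤ M) (h : ℕ → ℝ) :
    ∑ κ ∈ range M, S B l κ * h κ = ∑ b ∈ B, ∑ i ∈ range l, ((i : ℝ) + 1) * h (b + i) := by
  unfold S
  simp_rw [Finset.sum_mul]
  rw [Finset.sum_comm]
  refine Finset.sum_congr rfl fun b hb => ?_
  rw [Finset.sum_comm]
  refine Finset.sum_congr rfl fun i hi => ?_
  have h1 := hM b hb
  have h2 := Finset.mem_range.1 hi
  rw [Finset.sum_eq_single (b + i)]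
  · simp
  · intro c _ hc
    rw [if_neg (Ne.symm hc), zero_mul]
  · intro h3
    exact absurd (Finset.mem_range.2 (by omega)) h3

lemma S_sq (B : Finset ℕ) (l M : ℕ) (hM : ∀ b ∈ B, b + l ≤ M)
    (hS : ∀ i j : ℕ, i ≠ j → #((B ×ˢ B).filter fun p => p.1 + i = p.2 + j) ≤ 2) :
    ∑ κ ∈ range M, S B l κ ^ 2
      ≤ #B * ((l : ℝ) * (l + 1) * (2 * l + 1) / 6) + 2 * ((l : ℝ) * (l + 1) / 2) ^ 2 := by
  have h1 : ∑ κ ∈ range M, S B l κ ^ 2
      = ∑ i ∈ range l, ∑ j ∈ range l, ((i : ℝ) + 1) * ((j : ℝ) + 1) *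
        #((B ×ˢ B).filter fun p => p.1 + i = p.2 + j) := by
    have h2 := S_pair B l M hM (S B l)
    simp_rw [← sq] at h2
    rw [h2, Finset.sum_comm]
    refine Finset.sum_congr rfl fun i _ => ?_
    unfold S
    have h3 : ∀ b ∈ B, ((i : ℝ) + 1) * ∑ b' ∈ B, ∑ j ∈ range l, (if b' + j = b + i then (j : ℝ) + 1 else 0)
        = ∑ j ∈ range l, ∑ b' ∈ B, ((i : ℝ) + 1) * ((j : ℝ) + 1) * (if b + i = b' + j then 1 else 0) := by
      intro b _
      rw [Finset.sum_comm, Finset.mul_sum]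
      refine Finset.sum_congr rfl fun j _ => ?_
      rw [Finset.mul_sum]
      refine Finset.sum_congr rfl fun b' _ => ?_
      by_cases h : b + i = b' + j
      · rw [if_pos h, if_pos h.symm]; ring
      · rw [if_neg h, if_neg (Ne.symm h)]; ring
    rw [Finset.sum_congr rfl h3, Finset.sum_comm]
    refine Finset.sum_congr rfl fun j _ => ?_
    rw [Finset.card_filter, Finset.sum_product]
    push_cast
    simp_rw [Finset.mul_sum]
  have h4 : ∀ i j : ℕ, ((#((B ×ˢ B).filter fun p => p.1 + i = p.2 + j) : ℕ) : ℝ)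
      ≤ (if i = j then (#B : ℝ) else 0) + 2 := by
    intro i j
    by_cases h : i = j
    · subst h
      rw [if_pos rfl]
      have : #((B ×ˢ B).filter fun p => p.1 + i = p.2 + i) ≤ #B := by
        apply Finset.card_le_card_of_injOn (fun p => p.1)
        · intro p hp
          simp at hp
          exact hp.1.1
        · intro p hp q hq hpq
          simp at hp hq hpq
          ext
          · exact hpq
          · omega
      have : ((#((B ×ˢ B).filter fun p => p.1 + i = p.2 + i) : ℕ) : ℝ) ≤ #B := by exact_mod_cast this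
      linarith
    · rw [if_neg h]
      have : ((#((B ×ˢ B).filter fun p => p.1 + i = p.2 + j) : ℕ) : ℝ) ≤ 2 := by
        exact_mod_cast hS i j h
      linarith
  rw [h1]
  calc ∑ i ∈ range l, ∑ j ∈ range l, ((i : ℝ) + 1) * ((j : ℝ) + 1) *
        #((B ×ˢ B).filter fun p => p.1 + i = p.2 + j)
      ≤ ∑ i ∈ range l, ∑ j ∈ range l, ((i : ℝ) + 1) * ((j : ℝ) + 1) *
        ((if i = j then (#B : ℝ) else 0) + 2) := by
        apply Finset.sum_le_sum; intro i _
        apply Finset.sum_le_sum; intro j _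
        exact mul_le_mul_of_nonneg_left (h4 i j) (by positivity)
    _ = #B * ∑ i ∈ range l, ((i : ℝ) + 1) ^ 2 + 2 * (∑ i ∈ range l, ((i : ℝ) + 1)) ^ 2 := by
        have e1 : ∀ i ∈ range l, ∑ j ∈ range l, ((i : ℝ) + 1) * ((j : ℝ) + 1) *
            ((if i = j then (#B : ℝ) else 0) + 2)
            = #B * ((i : ℝ) + 1) ^ 2 + ((i : ℝ) + 1) * (2 * ∑ j ∈ range l, ((j : ℝ) + 1)) := by
          intro i hi
          have e2 : ∀ j ∈ range l, ((i : ℝ) + 1) * ((j : ℝ) + 1) * ((if i = j then (#B : ℝ) else 0) + 2)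
              = (if i = j then #B * (((i : ℝ) + 1) * ((j : ℝ) + 1)) else 0)
                + ((i : ℝ) + 1) * (2 * ((j : ℝ) + 1)) := by
            intro j _
            split_ifs <;> ring
          rw [Finset.sum_congr rfl e2, Finset.sum_add_distrib, Finset.sum_ite_eq, if_pos hi,
            Finset.mul_sum, Finset.mul_sum]
          ring
        rw [Finset.sum_congr rfl e1, Finset.sum_add_distrib, ← Finset.mul_sum, ← Finset.sum_mul]
        ring
    _ = _ := by rw [sum_id1, sum_sq1]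

lemma S_h {l : ℕ} (hl : 1 ≤ l) (B : Finset ℕ) (M : ℕ) (hM : ∀ b ∈ B, b + l ≤ M) :
    ∑ κ ∈ range M, S B l κ * (1 + (y l (κ + 1) - y l κ)) = #B * ((l : ℝ) * (l + 1) / 2) := by
  rw [S_pair B l M hM]
  have : ∀ b ∈ B, ∑ i ∈ range l, ((i : ℝ) + 1) * (1 + (y l (b + i + 1) - y l (b + i)))
      = (l : ℝ) * (l + 1) / 2 := by
    intro b _
    have h1 := K_step hl b
    unfold K at h1
    have h2 : ∑ i ∈ range l, ((i : ℝ) + 1) * (1 + (y l (b + i + 1) - y l (b + i)))
        = ∑ i ∈ range l, ((i : ℝ) + 1) + (∑ i ∈ range l, ((i : ℝ) + 1) * y l (b + 1 + i)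
          - ∑ i ∈ range l, ((i : ℝ) + 1) * y l (b + i)) := by
      rw [← Finset.sum_sub_distrib, ← Finset.sum_add_distrib]
      refine Finset.sum_congr rfl fun i _ => ?_
      have : b + i + 1 = b + 1 + i := by ring
      rw [this]; ring
    rw [h2, h1, sum_id1]
    ring
  rw [Finset.sum_congr rfl this]
  simp

lemma main_ineq {l : ℕ} (hl : 1 ≤ l) (m : ℕ) (B : Finset ℕ) (hB : ∀ b ∈ B, b ≤ m)
    (hS : ∀ i j : ℕ, i ≠ j → #((B ×ˢ B).filter fun p => p.1 + i = p.2 + j) ≤ 2) :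
    (#B : ℝ) ^ 2 ≤ (2 + 4 * #B / (3 * l)) *
      (((m : ℝ) + 1) + 2 * l / 3 + 1 / 3 + 6 * (l : ℝ) ^ 2 / (m + 1)) := by
  have hl0 : (0 : ℝ) < l := by exact_mod_cast hl
  have hM : ∀ b ∈ B, b + l ≤ l + m := fun b hb => by have := hB b hb; omega
  have h1 := Finset.sum_mul_sq_le_sq_mul_sq (range (l + m)) (S B l)
    (fun κ => 1 + (y l (κ + 1) - y l κ))
  rw [S_h hl B _ hM] at h1
  have h2 := S_sq B l _ hM hS
  have h3 := H_sum hl m
  set H := ((m : ℝ) + 1) + 2 * l / 3 + 1 / 3 + 6 * (l : ℝ) ^ 2 / (m + 1) with hH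
  have hH0 : 0 ≤ H := by positivity
  set P : ℝ := (l : ℝ) * (l + 1) / 2 with hP
  have hP0 : 0 < P := by positivity
  have h4 : (#B : ℝ) * ((l : ℝ) * (l + 1) * (2 * l + 1) / 6) + 2 * P ^ 2
      ≤ P ^ 2 * (2 + 4 * #B / (3 * l)) := by
    have : P ^ 2 * (2 + 4 * #B / (3 * l)) - ((#B : ℝ) * ((l : ℝ) * (l + 1) * (2 * l + 1) / 6) + 2 * P ^ 2)
        = (#B : ℝ) * (l * (l + 1) / 6) := by
      rw [hP]; field_simp; ring
    have : 0 ≤ (#B : ℝ) * ((l : ℝ) * (l + 1) / 6) := by positivity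
    linarith
  have h5 : ((#B : ℝ) * P) ^ 2 ≤ (P ^ 2 * (2 + 4 * #B / (3 * l))) * H := by
    refine h1.trans ?_
    apply mul_le_mul (h2.trans h4) h3 (Finset.sum_nonneg fun i _ => sq_nonneg _) (by positivity)
  have h6 : P ^ 2 * (#B : ℝ) ^ 2 ≤ P ^ 2 * ((2 + 4 * #B / (3 * l)) * H) := by
    calc P ^ 2 * (#B : ℝ) ^ 2 = ((#B : ℝ) * P) ^ 2 := by ring
      _ ≤ _ := h5
      _ = _ := by ring
  exact le_of_mul_le_mul_left h6 (by positivity)

/-! ### choice of the window length -/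

lemma final_num (n N l s u c : ℝ) (hn : 1 ≤ n) (hN : 1 ≤ N) (hNn : N ≤ n) (hs0 : 0 ≤ s)
    (hs : s ^ 2 = n * N) (hl : s ≤ l) (hl' : l ≤ s + 1) (hu0 : 0 ≤ u) (hu : u ^ 4 = 2 * n)
    (hc0 : 0 ≤ c) (hc : c ^ 2 = 8 / 9)
    (h : N ^ 2 ≤ (2 + 4 * N / (3 * l)) * (n + 2 * l / 3 + 1 / 3 + 6 * l ^ 2 / n)) :
    N ≤ u ^ 2 + c * u + 95 := by
  have hnpos : 0 < n := by linarith
  have hnN : 1 ≤ n * N := one_le_mul_of_one_le_of_one_le hn hN
  have hspos : 0 < s := by
    rcases hs0.eq_or_lt with h0 | h0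
    · rw [← h0] at hs
      exfalso
      norm_num at hs
      rcases hs with h1 | h1 <;> linarith
    · exact h0
  have hlpos : 0 < l := hspos.trans_le hl
  obtain ⟨q, hq⟩ : ∃ q, q = 4 * N / (3 * l) := ⟨_, rfl⟩
  have hql : q * l = 4 * N / 3 := by rw [hq]; field_simp
  have hq0 : 0 ≤ q := by rw [hq]; positivity
  have hNs : N ≤ s := by
    have : N ^ 2 ≤ s ^ 2 := by
      rw [hs]
      have e3 : N * N ≤ n * N := mul_le_mul_of_nonneg_right hNn (by linarith)
      have e2 : N ^ 2 = N * N := by ring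
      rw [e2]; exact e3
    exact le_of_abs_le (abs_le_of_sq_le_sq this (by positivity))
  have hq1 : q ≤ 4 / 3 := by
    rw [hq, div_le_iff₀ (by positivity)]
    linarith
  have hqn : q * n ≤ 4 * s / 3 := by
    rw [hq, div_mul_eq_mul_div, div_le_div_iff₀ (by positivity) (by positivity)]
    have e1 : s * s ≤ s * l := mul_le_mul_of_nonneg_left hl hs0
    have e2 : s * s = n * N := by rw [← hs]; ring
    have e3 : 4 * N * n * 3 = 12 * (n * N) := by ring
    have e4 : 4 * s * (3 * l) = 12 * (s * l) := by ring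
    rw [e3, e4, ← e2]
    linarith
  obtain ⟨w, hw⟩ : ∃ w, w = 6 * l ^ 2 / n := ⟨_, rfl⟩
  have hw0 : 0 ≤ w := by rw [hw]; positivity
  have hw1 : w ≤ 12 * N + 12 := by
    rw [hw, div_le_iff₀ hnpos]
    have e1 : l ^ 2 ≤ (s + 1) ^ 2 := pow_le_pow_left₀ hlpos.le hl' 2
    have e2 : (s + 1) ^ 2 ≤ 2 * s ^ 2 + 2 := by
      have := sq_nonneg (s - 1)
      have e3 : 2 * s ^ 2 + 2 - (s + 1) ^ 2 = (s - 1) ^ 2 := by ring
      linarith
    have e4 : (12 * N + 12) * n = 12 * (n * N) + 12 * n := by ring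
    rw [e4, ← hs]
    linarith
  rw [← hq, ← hw] at h
  have h1 : N ^ 2 ≤ 2 * n + 8 * s / 3 + 85 * N := by
    have : (2 + q) * (n + 2 * l / 3 + 1 / 3 + w)
        = 2 * n + q * n + 4 * l / 3 + 2 / 3 * (q * l) + (2 + q) * (1 / 3 + w) := by ring
    rw [this, hql] at h
    have h2 : (2 + q) * (1 / 3 + w) ≤ (10 / 3) * (1 / 3 + w) :=
      mul_le_mul_of_nonneg_right (by linarith) (by positivity)
    linarith
  obtain ⟨t, ht⟩ : ∃ t, t = Real.sqrt N := ⟨_, rfl⟩
  have ht0 : 0 ≤ t := by rw [ht]; positivity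
  have ht2 : t ^ 2 = N := by rw [ht]; exact Real.sq_sqrt (by linarith)
  have hst : 8 * s / 3 = 2 * c * (u ^ 2 * t) := by
    have e1 : (8 * s / 3) ^ 2 = (2 * c * (u ^ 2 * t)) ^ 2 := by
      have : (2 * c * (u ^ 2 * t)) ^ 2 = 4 * c ^ 2 * u ^ 4 * t ^ 2 := by ring
      rw [this, hc, hu, ht2]
      have : (8 * s / 3) ^ 2 = 64 / 9 * s ^ 2 := by ring
      rw [this, hs]; ring
    exact (pow_left_inj₀ (by positivity) (by positivity) two_ne_zero).1 e1
  have hu4 : (u ^ 2) ^ 2 = 2 * n := by rw [← hu]; ring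
  have hX : N ≤ (u ^ 2 + c * t) + 85 := by
    by_contra hcon
    push Not at hcon
    have hX0 : 0 ≤ u ^ 2 + c * t := by positivity
    have h3 : N ^ 2 ≤ (u ^ 2 + c * t) ^ 2 + 85 * N := by
      rw [hst, ← hu4] at h1
      have e1 : (u ^ 2 + c * t) ^ 2 = (u ^ 2) ^ 2 + 2 * c * (u ^ 2 * t) + (c * t) ^ 2 := by ring
      have e2 := sq_nonneg (c * t)
      rw [e1]
      linarith
    generalize u ^ 2 + c * t = X at hcon hX0 h3
    have e3 : 0 < (N - (X + 85)) * (N + X) := mul_pos (by linarith) (by linarith)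
    have e4 : (N - (X + 85)) * (N + X) = N ^ 2 - X ^ 2 - 85 * N - 85 * X := by ring
    linarith
  have hc1 : c ≤ 1 := by
    by_contra hcon
    push Not at hcon
    have : 1 < c ^ 2 := one_lt_pow₀ hcon two_ne_zero
    linarith
  have htu : t ≤ u + 10 := by
    by_contra hcon
    push Not at hcon
    have h5 : t ^ 2 ≤ u ^ 2 + c * t + 85 := by rw [ht2]; linarith
    have h6 : c * t ≤ t := mul_le_of_le_one_left ht0 hc1
    have e3 : 0 < (t - (u + 10)) * (t + (u + 9)) := mul_pos (by linarith) (by linarith)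
    have e4 : (t - (u + 10)) * (t + (u + 9)) = t ^ 2 - t - u ^ 2 - 19 * u - 90 := by ring
    linarith
  have h7 : c * t ≤ c * (u + 10) := mul_le_mul_of_nonneg_left htu hc0
  have h8 : c * (u + 10) = c * u + 10 * c := by ring
  linarith

/-- In an almost Sidon set every non-zero difference has at most two representations. -/
lemma diff_le_two (B : Finset ℕ)
    (hS : ∀ n m : ℕ,
        1 < ((B ×ˢ B).filter (fun p => p.1 ≤ p.2 ∧ p.1 + p.2 = n)).card →
        1 < ((B ×ˢ B).filter (fun p => p.1 ≤ p.2 ∧ p.1 + p.2 = m)).card →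
        n = m) (i j : ℕ) (hij : i ≠ j) :
    #((B ×ˢ B).filter fun p => p.1 + i = p.2 + j) ≤ 2 := by
  by_contra hcon
  push Not at hcon
  obtain ⟨p, hp, q, hq, r, hr, hpq, hpr, hqr⟩ := Finset.two_lt_card.1 hcon
  simp only [Finset.mem_filter, Finset.mem_product] at hp hq hr
  -- two different pairs with equal difference give a sum with two representations
  have key : ∀ a b c d : ℕ, a ∈ B → b ∈ B → c ∈ B → d ∈ B → a + i = b + j → c + i = d + j →
      (a, b) ≠ (c, d) →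
      1 < ((B ×ˢ B).filter (fun p => p.1 ≤ p.2 ∧ p.1 + p.2 = a + d)).card := by
    intro a b c d ha hb hc hd h1 h2 hne
    have hac : a ≠ c := by
      rintro rfl
      apply hne
      have : b = d := by omega
      rw [this]
    have hab : a ≠ b := by omega
    rw [Finset.one_lt_card]
    refine ⟨(min a d, max a d), ?_, (min b c, max b c), ?_, ?_⟩
    · simp only [Finset.mem_filter, Finset.mem_product]
      refine ⟨⟨?_, ?_⟩, ?_, ?_⟩
      · rcases le_total a d with h | h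
        · rw [min_eq_left h]; exact ha
        · rw [min_eq_right h]; exact hd
      · rcases le_total a d with h | h
        · rw [max_eq_right h]; exact hd
        · rw [max_eq_left h]; exact ha
      · omega
      · omega
    · simp only [Finset.mem_filter, Finset.mem_product]
      refine ⟨⟨?_, ?_⟩, ?_, ?_⟩
      · rcases le_total b c with h | h
        · rw [min_eq_left h]; exact hb
        · rw [min_eq_right h]; exact hc
      · rcases le_total b c with h | h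
        · rw [max_eq_right h]; exact hc
        · rw [max_eq_left h]; exact hb
      · omega
      · omega
    · intro he
      have e1 : min a d = min b c := congrArg Prod.fst he
      have e2 : max a d = max b c := congrArg Prod.snd he
      omega
  have k1 := key p.1 p.2 q.1 q.2 hp.1.1 hp.1.2 hq.1.1 hq.1.2 hp.2 hq.2 hpq
  have k2 := key p.1 p.2 r.1 r.2 hp.1.1 hp.1.2 hr.1.1 hr.1.2 hp.2 hr.2 hpr
  have h1 := hS _ _ k1 k2
  apply hqr
  have e1 : q.2 = r.2 := by omega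
  have e2 : q.1 = r.1 := by
    have := hq.2
    have := hr.2
    omega
  exact Prod.ext e2 e1

/-- **Main theorem.**  If `A ⊆ {1, …, N}` and at most one integer has more than one
representation `a + b` with `a ≤ b`, `a, b ∈ A`, then
`|A| ≤ √(2N) + (2√2/3) (2N)^{1/4} + 95`. -/
theorem result :
    ∀ N : ℕ, ∀ A : Finset ℕ, A ⊆ Finset.Icc 1 N →
      (∀ n m : ℕ,
        1 < ((A ×ˢ A).filter (fun p => p.1 ≤ p.2 ∧ p.1 + p.2 = n)).card →
        1 < ((A ×ˢ A).filter (fun p => p.1 ≤ p.2 ∧ p.1 + p.2 = m)).card →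
        n = m) →
      (A.card : ℝ) ≤ Real.sqrt (2 * (N : ℝ))
        + (2 * Real.sqrt 2 / 3) * (2 * (N : ℝ)) ^ ((1 : ℝ) / 4) + 95 := by
  intro n A hA hS
  rcases Nat.eq_zero_or_pos #A with h0 | h0
  · rw [h0]
    push_cast
    positivity
  obtain ⟨a0, ha0⟩ := Finset.card_pos.1 h0
  have hn0 : 1 ≤ n := by
    have := Finset.mem_Icc.1 (hA ha0)
    omega
  obtain ⟨m, rfl⟩ : ∃ m, n = m + 1 := ⟨n - 1, by omega⟩
  have hDA := diff_le_two A hS
  clear hS
  obtain ⟨B, hBdef⟩ : ∃ B : Finset ℕ, B = A.image (fun a => a - 1) := ⟨_, rfl⟩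
  have hinj : Set.InjOn (fun a => a - 1) (A : Set ℕ) := by
    intro a ha b hb hab
    have h1 := Finset.mem_Icc.1 (hA ha)
    have h2 := Finset.mem_Icc.1 (hA hb)
    simp only at hab
    omega
  have hBcard : #B = #A := by rw [hBdef]; exact Finset.card_image_of_injOn hinj
  have hB : ∀ b ∈ B, b ≤ m := by
    intro b hb
    rw [hBdef] at hb
    obtain ⟨a, ha, rfl⟩ := Finset.mem_image.1 hb
    have h1 := Finset.mem_Icc.1 (hA ha)
    omega
  have hSB : ∀ i j : ℕ, i ≠ j → #((B ×ˢ B).filter fun p => p.1 + i = p.2 + j) ≤ 2 := by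
    intro i j hij
    refine le_trans ?_ (hDA i j hij)
    apply Finset.card_le_card_of_injOn (fun p => (p.1 + 1, p.2 + 1))
    · intro p hp
      simp only [Finset.coe_filter, Finset.mem_product, Set.mem_ofPred_eq] at hp ⊢
      obtain ⟨⟨h1, h2⟩, h3⟩ := hp
      rw [hBdef] at h1 h2
      obtain ⟨a, ha, ha'⟩ := Finset.mem_image.1 h1
      obtain ⟨b, hb, hb'⟩ := Finset.mem_image.1 h2
      have h4 := Finset.mem_Icc.1 (hA ha)
      have h5 := Finset.mem_Icc.1 (hA hb)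
      have e1 : p.1 + 1 = a := by omega
      have e2 : p.2 + 1 = b := by omega
      rw [e1, e2]
      exact ⟨⟨ha, hb⟩, by omega⟩
    · intro p _ q _ hpq
      simp only [Prod.mk.injEq] at hpq
      exact Prod.ext (by omega) (by omega)
  have hNle : #B ≤ m + 1 := by
    have : B ⊆ range (m + 1) := fun b hb => Finset.mem_range.2 (by have := hB b hb; omega)
    simpa using Finset.card_le_card this
  have hN1 : 1 ≤ #B := by omega
  clear hDA
  rw [← hBcard]
  set s : ℝ := Real.sqrt (((m + 1 : ℕ) : ℝ) * #B) with hs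
  have hs0 : 0 ≤ s := Real.sqrt_nonneg _
  have hN1' : (1 : ℝ) ≤ #B := by exact_mod_cast hN1
  have hn1' : (1 : ℝ) ≤ ((m + 1 : ℕ) : ℝ) := by exact_mod_cast hn0
  have hs2 : s ^ 2 = ((m + 1 : ℕ) : ℝ) * #B := Real.sq_sqrt (by positivity)
  have hspos : 0 < s := Real.sqrt_pos.2 (by positivity)
  have hl1 : 1 ≤ ⌈s⌉₊ := Nat.one_le_iff_ne_zero.2 (Nat.pos_iff_ne_zero.1 (Nat.ceil_pos.2 hspos))
  have h := main_ineq hl1 m B hB hSB
  set u : ℝ := (2 * ((m + 1 : ℕ) : ℝ)) ^ ((1 : ℝ) / 4) with hu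
  have hu0 : 0 ≤ u := by positivity
  have hu4 : u ^ 4 = 2 * ((m + 1 : ℕ) : ℝ) := by
    rw [hu, ← Real.rpow_natCast, ← Real.rpow_mul (by positivity)]
    norm_num
  have hu2 : u ^ 2 = Real.sqrt (2 * ((m + 1 : ℕ) : ℝ)) := by
    rw [← hu4]
    have : u ^ 4 = (u ^ 2) ^ 2 := by ring
    rw [this, Real.sqrt_sq (by positivity)]
  rw [← hu2]
  refine final_num ((m + 1 : ℕ) : ℝ) #B ⌈s⌉₊ s u (2 * Real.sqrt 2 / 3) hn1' hN1' (by exact_mod_cast hNle)
    hs0 hs2 (Nat.le_ceil s) (Nat.ceil_lt_add_one hs0).le hu0 hu4 (by positivity) ?_ ?_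
  · have := Real.sq_sqrt (show (0 : ℝ) ≤ 2 by norm_num)
    have e : (2 * Real.sqrt 2 / 3) ^ 2 = 4 / 9 * Real.sqrt 2 ^ 2 := by ring
    rw [e, this]; norm_num
  · push_cast at h ⊢
    exact h

end Pool.Agent.Results.MP_d9c72a_nt.RootTwo
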